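import Mathlib

namespace Pool.Agent.H.MP_e8d659_an
open Polynomial

lemma red {q r : ℝ[X]} {n : ℕ} (hq : q.degree = n) (hr : r.degree < ((n + 1 : ℕ) : WithBot ℕ)) :
    (r - C (r.coeff n / q.leadingCoeff) * q).degree < n := by
  have h0 : q ≠ 0 := by rintro rfl; simp at hq
  have hn : q.natDegree = n := natDegree_eq_of_degree_eq_some hq
  rw [degree_lt_iff_coeff_zero] at hr ⊢
  intro m hm
  rw [coeff_sub, coeff_C_mul]
  rcases hm.eq_or_lt with rfl | h
  · have : q.coeff n = q.leadingCoeff := by rw [leadingCoeff, hn]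
    rw [this, div_mul_cancel₀ _ (leadingCoeff_ne_zero.2 h0), sub_self]
  · rw [hr m h, coeff_eq_zero_of_natDegree_lt (p := q) (by omega)]; simp

lemma split (q r : ℝ[X]) (c : ℝ) : r = (r - C c * q) + c • q := by
  rw [smul_eq_C_mul]; ring

variable (J : ℝ[X] →ₗ[ℝ] ℝ)

lemma low {p : ℕ → ℝ[X]} (hd : ∀ n : ℕ, (p n).degree = n) (s : ℝ[X]) (k : ℕ)
    (h : ∀ m < k, J (s * p m) = 0) : ∀ r : ℝ[X], r.degree < k → J (s * r) = 0 := by
  induction k with
  | zero => intro r hr; have : r = 0 := by simpa using hr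
            simp [this]
  | succ k ih =>
    intro r hr
    rw [split (p k) r (r.coeff k / (p k).leadingCoeff), mul_add, map_add,
      ih (fun m hm => h m (by omega)) _ (red (hd k) hr), mul_smul_comm, map_smul, h k (by omega)]
    simp

noncomputable def q : ℕ → ℝ[X]
  | 0 => 1
  | 1 => X - C (J X / J 1)
  | n + 2 => (X - C (J (X * (q (n + 1) * q (n + 1))) / J (q (n + 1) * q (n + 1)))) * q (n + 1) -
      C (J (q (n + 1) * q (n + 1)) / J (q n * q n)) * q n

lemma q_deg : ∀ n : ℕ, (q J n).Monic ∧ (q J n).degree = n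
  | 0 => by simp [q]
  | 1 => ⟨monic_X_sub_C _, degree_X_sub_C _⟩
  | n + 2 => by
    obtain ⟨a, b⟩ := q_deg n
    obtain ⟨c, d⟩ := q_deg (n + 1)
    rw [q]
    generalize J (X * _) / _ = β
    generalize J _ / _ = γ
    have e : ((X - C β) * q J (n + 1)).degree = ((n + 2 : ℕ) : WithBot ℕ) := by
      rw [degree_mul, degree_X_sub_C, d]; push_cast; ring
    have l : (C γ * q J n).degree < ((X - C β) * q J (n + 1)).degree := by
      rw [e]
      refine lt_of_le_of_lt (degree_mul_le_of_le degree_C_le b.le) ?_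
      rw [zero_add]; exact_mod_cast (by omega : n < n + 2)
    exact ⟨((monic_X_sub_C β).mul c).sub_of_left l, by rw [degree_sub_eq_left_of_degree_lt l, e]⟩

variable {J}

lemma xq (n : ℕ) : (X * q J n - q J (n + 1)).degree < ((n + 1 : ℕ) : WithBot ℕ) := by
  have h1 : (X * q J n).degree = ((n + 1 : ℕ) : WithBot ℕ) := by
    rw [degree_mul, degree_X, (q_deg J n).2]; push_cast; ring
  have := degree_sub_lt (h1.trans (q_deg J (n + 1)).2.symm) (monic_X.mul (q_deg J n).1).ne_zero
    (by rw [(monic_X.mul (q_deg J n).1).leadingCoeff, (q_deg J (n + 1)).1.leadingCoeff])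
  rwa [h1] at this

lemma q_orth (hJ : ∀ r, r ≠ 0 → 0 < J (r * r)) :
    ∀ n : ℕ, ∀ r : ℝ[X], r.degree < n → J (q J n * r) = 0
  | 0 => fun r hr => by
    have : r = 0 := by simpa using hr
    simp [this]
  | 1 => by
    refine low J (fun n => (q_deg J n).2) _ 1 fun m hm => ?_
    obtain rfl : m = 0 := by omega
    have := (hJ 1 one_ne_zero).ne'
    rw [mul_one] at this
    simp only [q, mul_one, map_sub]
    rw [← mul_one (C _), ← smul_eq_C_mul, map_smul, smul_eq_mul, div_mul_cancel₀ _ this, sub_self]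
  | n + 2 => by
    have a := q_orth hJ n
    have b := q_orth hJ (n + 1)
    have p0 := (hJ _ (q_deg J n).1.ne_zero).ne'
    have p1 := (hJ _ (q_deg J (n + 1)).1.ne_zero).ne'
    refine low J (fun n => (q_deg J n).2) _ _ fun m hm => ?_
    have e : J (q J (n + 2) * q J m) = J (q J (n + 1) * (X * q J m)) -
        J (X * (q J (n + 1) * q J (n + 1))) / J (q J (n + 1) * q J (n + 1)) * J (q J (n + 1) * q J m) -
        J (q J (n + 1) * q J (n + 1)) / J (q J n * q J n) * J (q J n * q J m) := by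
      have w : ∀ (c : ℝ) (r : ℝ[X]), c * J r = J (C c * r) := fun c r => by
        rw [← smul_eq_C_mul, map_smul, smul_eq_mul]
      rw [w, w, ← map_sub, ← map_sub, q]
      congr 1; ring
    have lt : ∀ {i j : ℕ}, i < j → (q J i).degree < j := fun h => by
      rw [(q_deg J _).2]; exact_mod_cast h
    rw [e]
    obtain h | rfl | rfl : m < n ∨ m = n ∨ m = n + 1 := by omega
    · rw [a _ (lt h), b (q J m) (lt (by omega)), b (X * q J m)]
      · simp
      · rw [degree_mul, degree_X, (q_deg J _).2]; exact_mod_cast (by omega : 1 + m < n + 1)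
    · have := b _ (xq (J := J) m)
      rw [mul_sub, map_sub, sub_eq_zero] at this
      rw [this, b (q J m) (lt (by omega)), div_mul_cancel₀ _ p0]; simp
    · rw [mul_comm (q J n) (q J (n + 1)), b (q J n) (lt (by omega)), div_mul_cancel₀ _ p1, mul_left_comm]; simp

def OP (J : ℝ[X] →ₗ[ℝ] ℝ) (p : ℕ → ℝ[X]) (a b : ℕ → ℝ) : Prop :=
  (∀ n : ℕ, (p n).degree = n ∧ 0 < (p n).leadingCoeff) ∧
  (∀ m n, J (p m * p n) = if m = n then 1 else 0) ∧ (∀ n, 0 < a (n + 1)) ∧
  X * p 0 = C (a 1) * p 1 + C (b 0) * p 0 ∧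
  ∀ n, X * p (n + 1) = C (a (n + 2)) * p (n + 2) + C (b (n + 1)) * p (n + 1) + C (a (n + 1)) * p n

lemma exOP (hJ : ∀ r, r ≠ 0 → 0 < J (r * r)) : ∃ p a b, OP J p a b := by
  let s : ℕ → ℝ := fun n => √(J (q J n * q J n))
  have s0 : ∀ n, 0 < s n := fun n => Real.sqrt_pos.2 (hJ _ (q_deg J n).1.ne_zero)
  have ss : ∀ n, J (q J n * q J n) = s n * s n := fun n =>
    (Real.mul_self_sqrt (hJ _ (q_deg J n).1.ne_zero).le).symm
  refine ⟨fun n => (s n)⁻¹ • q J n, fun n => s n / s (n - 1),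
    fun n => J (X * (q J n * q J n)) / J (q J n * q J n), fun n => ?_, fun m n => ?_,
    fun n => div_pos (s0 _) (s0 _), ?_, fun n => ?_⟩
  · dsimp only
    rw [smul_eq_C_mul, degree_C_mul (inv_pos.2 (s0 n)).ne', leadingCoeff_mul,
      (q_deg J n).1.leadingCoeff]
    exact ⟨(q_deg J n).2, by simpa using s0 n⟩
  · dsimp only
    rw [smul_mul_smul_comm, map_smul, smul_eq_mul]
    have lt : ∀ {i j : ℕ}, i < j → (q J i).degree < j := fun h => by
      rw [(q_deg J _).2]; exact_mod_cast h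
    rcases lt_trichotomy m n with h | rfl | h
    · rw [mul_comm (q J m), q_orth hJ _ _ (lt h), if_neg h.ne, mul_zero]
    · rw [ss, if_pos rfl]; have := (s0 m).ne'; field_simp
    · rw [q_orth hJ _ _ (lt h), if_neg h.ne', mul_zero]
  · have := (s0 0).ne'
    have := (s0 1).ne'
    simp only [← smul_eq_C_mul, smul_smul, q, mul_one, Nat.sub_self]
    rw [show s 1 / s 0 * (s 1)⁻¹ = (s 0)⁻¹ by field_simp, ← mul_one (C _), ← smul_eq_C_mul]
    simp only [mul_smul_comm, mul_one]
    module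
  · have := (s0 n).ne'
    have := (s0 (n + 1)).ne'
    have := (s0 (n + 2)).ne'
    simp only [← smul_eq_C_mul, smul_smul, Nat.add_one_sub_one]
    rw [show s (n + 2) / s (n + 1) * (s (n + 2))⁻¹ = (s (n + 1))⁻¹ by field_simp, q, sub_mul,
      ← smul_eq_C_mul, ← smul_eq_C_mul, ss n, mul_smul_comm,
      show s (n + 1) / s n * (s n)⁻¹ = (s (n + 1))⁻¹ * (J (q J (n + 1) * q J (n + 1)) / (s n * s n)) by
        rw [ss]; field_simp]
    module

lemma OP.lc {p a b} (h : OP J p a b) (n : ℕ) :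
    (p n).leadingCoeff = a (n + 1) * (p (n + 1)).leadingCoeff := by
  have nd : ∀ n, (p n).natDegree = n := fun n => natDegree_eq_of_degree_eq_some (h.1 n).1
  have z : ∀ {i j : ℕ}, i < j → (p i).coeff j = 0 := fun hh =>
    coeff_eq_zero_of_natDegree_lt (by rwa [nd])
  rcases n with _ | n
  · have := congrArg (coeff · 1) h.2.2.2.1
    simpa [leadingCoeff, nd, z, coeff_X_mul] using this
  · have := congrArg (coeff · (n + 2)) (h.2.2.2.2 n)
    simpa [leadingCoeff, nd, z, coeff_X_mul] using this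

lemma OP.mon {p a b} (h : OP J p a b) (n : ℕ) {r : ℝ[X]} (hr : r.Monic) (hd : r.degree = n) :
    (p n).leadingCoeff * J (p n * r) = 1 := by
  have nd : r.natDegree = n := natDegree_eq_of_degree_eq_some hd
  have h1 := low J (fun n => (h.1 n).1) (p n) n (fun m hm => by rw [h.2.1, if_neg hm.ne']) _
    (red (h.1 n).1 (r := r) (by rw [hd]; exact_mod_cast n.lt_succ_self))
  have h2 := h.2.1 n n
  rw [mul_sub, map_sub, mul_left_comm, ← smul_eq_C_mul, map_smul, h2, if_pos rfl, ← nd,
    hr.coeff_natDegree, nd, sub_eq_zero] at h1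
  rw [h1]
  have := (h.1 n).2.ne'
  simp only [smul_eq_mul]
  field_simp

end Pool.Agent.H.MP_e8d659_an
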