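import Pool.Agent.H.MP_e8d659_an.A

namespace Pool.Agent.H.MP_e8d659_an
open Polynomial MeasureTheory Real

noncomputable def g (x : ℝ) : ℝ := exp (-(x ^ 2 / 2))

lemma g_pos (x : ℝ) : 0 < g x := exp_pos _

lemma g_cont : Continuous g := by unfold g; fun_prop

lemma intg (q : ℝ[X]) : Integrable fun x => q.eval x * g x := by
  induction q using Polynomial.induction_on' with
  | add p q hp hq => simp only [eval_add, add_mul]; exact hp.add hq
  | monomial n a =>
    have := (integrable_rpow_mul_exp_neg_mul_sq (b := 1 / 2) (by norm_num) (s := n)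
      (by have := n.cast_nonneg (α := ℝ); linarith)).const_mul a
    refine this.congr (ae_of_all _ fun x => ?_)
    simp only [eval_monomial, rpow_natCast, g, mul_assoc]
    congr 3; ring

noncomputable def Jw (w : ℝ → ℝ) (h : ∀ q : ℝ[X], Integrable fun x => q.eval x * w x) :
    ℝ[X] →ₗ[ℝ] ℝ where
  toFun q := ∫ x, q.eval x * w x
  map_add' p q := by simp only [eval_add, add_mul]; exact integral_add (h p) (h q)
  map_smul' c q := by simp only [eval_smul, smul_eq_mul, mul_assoc, integral_const_mul]; rfl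

noncomputable def I : ℝ[X] →ₗ[ℝ] ℝ := Jw g intg

lemma I_def (q : ℝ[X]) : I q = ∫ x, q.eval x * g x := rfl

lemma stein (q : ℝ[X]) : I (X * q) = I (derivative q) := by
  rw [← sub_eq_zero, ← neg_eq_zero, neg_sub, ← map_sub, I_def]
  refine integral_eq_zero_of_hasDerivAt_of_integrable (f := fun x => q.eval x * g x)
    (fun x => ?_) (intg _) (intg q)
  have h : HasDerivAt g (g x * (-x)) x := by
    have := (((hasDerivAt_pow 2 x).div_const 2).neg).exp
    refine this.congr_deriv ?_
    simp [g]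
  refine ((q.hasDerivAt x).mul h).congr_deriv ?_
  simp; ring

lemma I_pos (r : ℝ[X]) (h : r ≠ 0) : 0 < I (r * r) := by
  obtain ⟨x, hx⟩ : ∃ x, r.eval x ≠ 0 := by
    by_contra! hh
    exact h (Polynomial.funext (by simpa using hh))
  refine integral_pos_of_integrable_nonneg_nonzero (x := x) ((Polynomial.continuous _).mul g_cont)
    (intg _) (fun y => ?_) ?_
  · rw [eval_mul]; exact mul_nonneg (mul_self_nonneg _) (g_pos y).le
  · rw [eval_mul]; exact mul_ne_zero (mul_ne_zero hx hx) (g_pos x).ne'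

noncomputable def H : ℕ → ℝ[X]
  | 0 => 1
  | n + 1 => X * H n - derivative (H n)

lemma dH : ∀ n : ℕ, derivative (H (n + 1)) = C (n + 1 : ℝ) * H n
  | 0 => by simp [H]
  | n + 1 => by
    rw [H, derivative_sub, derivative_mul, dH n, derivative_mul, H]
    simp; ring

lemma recH (n : ℕ) : H (n + 2) = X * H (n + 1) - C (n + 1 : ℝ) * H n := by rw [H, dH]

lemma H_deg : ∀ n : ℕ, (H n).Monic ∧ (H n).degree = n
  | 0 => by simp [H]
  | n + 1 => by
    obtain ⟨a, b⟩ := H_deg n
    have e : (X * H n).degree = ((n + 1 : ℕ) : WithBot ℕ) := by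
      rw [degree_mul, degree_X, b]; push_cast; ring
    have l : (derivative (H n)).degree < (X * H n).degree := by
      rw [e]
      refine lt_of_le_of_lt (degree_derivative_le.trans b.le) ?_
      exact_mod_cast n.lt_succ_self
    exact ⟨(monic_X.mul a).sub_of_left l, by rw [H, degree_sub_eq_left_of_degree_lt l, e]⟩

noncomputable def κ (n : ℕ) : ℝ := n.factorial * I 1

lemma I1 : 0 < I 1 := by simpa using I_pos 1 one_ne_zero

lemma κ_pos (n : ℕ) : 0 < κ n := mul_pos (by positivity) I1

lemma κ_succ (n : ℕ) : κ (n + 1) = (n + 1) * κ n := by simp [κ, Nat.factorial_succ, mul_assoc]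

lemma hI : ∀ (n : ℕ) (q : ℝ[X]), q.natDegree ≤ n → I (H n * q) = κ n * q.coeff n
  | 0, q, h => by
    conv_lhs => rw [eq_C_of_natDegree_le_zero h, H, mul_comm, ← smul_eq_C_mul, map_smul]
    simp [κ, mul_comm]
  | n + 1, q, h => by
    have := stein (H n * q)
    rw [derivative_mul, map_add] at this
    rw [H, sub_mul, map_sub, mul_assoc, this, add_sub_cancel_left,
      hI n _ (by have := natDegree_derivative_le q; omega), coeff_derivative, κ_succ]
    ring

lemma H_nd (n : ℕ) : (H n).natDegree = n := natDegree_eq_of_degree_eq_some (H_deg n).2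

lemma HH (n : ℕ) : I (H n * H n) = κ n := by
  rw [hI n _ (H_nd n).le]
  have := (H_deg n).1.coeff_natDegree
  rw [H_nd] at this
  rw [this, mul_one]

lemma HO {m n : ℕ} (h : m < n) : I (H n * H m) = 0 := by
  rw [hI n _ (by rw [H_nd]; omega), coeff_eq_zero_of_natDegree_lt (by rwa [H_nd]), mul_zero]

noncomputable def T (m : ℕ) : ℝ[X] := H (m + 1) * H (m + 1) + C (m + 1 : ℝ) * (H m * H m)

lemma dT (m : ℕ) : derivative (T m) = C (2 * (m + 1) : ℝ) * (X * (H m * H m)) := by
  have : derivative (H m) = X * H m - H (m + 1) := by rw [H]; ring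
  simp only [T, derivative_add, derivative_mul, dH, this, derivative_C, map_mul]
  rw [show (C 2 : ℝ[X]) = 2 from rfl]
  ring

lemma Tb (m : ℕ) (x : ℝ) : (T m).eval x ≤ (T m).eval 0 * exp (x ^ 2) := by
  have hd : ∀ y, HasDerivAt (fun y => (T m).eval y * exp (-y ^ 2))
      (-y * (2 * ((H (m + 1)).eval y) ^ 2 * exp (-y ^ 2))) y := fun y => by
    refine (((T m).hasDerivAt y).mul (hasDerivAt_pow 2 y).neg.exp).congr_deriv ?_
    rw [dT]; simp [T]; ring
  have key : (T m).eval x * exp (-x ^ 2) ≤ (T m).eval 0 * exp (-0 ^ 2) := by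
    rcases lt_trichotomy x 0 with h | rfl | h
    · obtain ⟨c, hc, e⟩ := exists_hasDerivAt_eq_slope _ _ h
        (fun y _ => (hd y).continuousAt.continuousWithinAt) fun y _ => hd y
      have : 0 ≤ -c * (2 * ((H (m + 1)).eval c) ^ 2 * exp (-c ^ 2)) :=
        mul_nonneg (by linarith [hc.2]) (by positivity)
      rw [e, le_div_iff₀ (by linarith)] at this
      linarith
    · exact le_rfl
    · obtain ⟨c, hc, e⟩ := exists_hasDerivAt_eq_slope _ _ h
        (fun y _ => (hd y).continuousAt.continuousWithinAt) fun y _ => hd y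
      have : -c * (2 * ((H (m + 1)).eval c) ^ 2 * exp (-c ^ 2)) ≤ 0 :=
        mul_nonpos_of_nonpos_of_nonneg (by linarith [hc.1]) (by positivity)
      rw [e, div_le_iff₀ (by linarith)] at this
      linarith
  rw [exp_neg, ← div_eq_mul_inv, div_le_iff₀ (exp_pos _)] at key
  simpa using key

lemma H0 : ∀ n : ℕ, ((H n).eval 0 ^ 2 / n.factorial) ^ 2 ≤ 1 / (n + 1)
  | 0 => by simp [H]
  | 1 => by simp [H]
  | n + 2 => by
    have := H0 n
    have e : (H (n + 2)).eval 0 ^ 2 / (n + 2).factorial =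
        (n + 1) / (n + 2) * ((H n).eval 0 ^ 2 / n.factorial) := by
      rw [recH]; simp [Nat.factorial_succ]; field_simp; ring
    rw [e, mul_pow]
    refine (mul_le_mul_of_nonneg_left this (by positivity)).trans ?_
    rw [div_pow, div_mul_div_comm, div_le_div_iff₀ (by positivity) (by positivity)]
    push_cast
    have : (0 : ℝ) ≤ n := n.cast_nonneg
    nlinarith [mul_nonneg this this]

lemma T0 (ε : ℝ) (hε : 0 < ε) : ∃ N : ℕ, ∀ m ≥ N, (T m).eval 0 * I 1 ≤ ε * κ (m + 1) := by
  obtain ⟨N, hN⟩ := exists_nat_one_div_lt (K := ℝ) (ε := (ε / 2) ^ 2) (by positivity)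
  have k : ∀ m ≥ N, (H m).eval 0 ^ 2 ≤ ε / 2 * m.factorial := fun m hm => by
    rw [← div_le_iff₀ (by positivity)]
    refine le_of_sq_le_sq ((H0 m).trans (le_trans ?_ hN.le)) (by positivity)
    gcongr
  refine ⟨N, fun m hm => ?_⟩
  have a := k m hm
  have b := k (m + 1) (by omega)
  rw [κ, ← mul_assoc]
  refine mul_le_mul_of_nonneg_right ?_ I1.le
  have c := mul_le_mul_of_nonneg_left a (by positivity : (0 : ℝ) ≤ m + 1)
  simp only [T, eval_add, eval_mul, eval_C, Nat.factorial_succ, Nat.cast_mul, Nat.cast_add,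
    Nat.cast_one] at b ⊢
  nlinarith

end Pool.Agent.H.MP_e8d659_an
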