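import Pool.Agent.H.MP_e8d659_an.B

namespace Pool.Agent.H.MP_e8d659_an
open Polynomial MeasureTheory Real

noncomputable def S (m : ℕ) : ℝ[X] := H (m + 1) * H (m + 1) - C (m + 1 : ℝ) * (H m * H m)

noncomputable def D (m : ℕ) : ℝ := ∫ x, |(S m).eval x| * g x

lemma intS (m : ℕ) : Integrable fun x => |(S m).eval x| * g x :=
  (intg (S m)).abs.congr (ae_of_all _ fun x => by simp only [abs_mul, abs_of_pos (g_pos x)])

lemma XH (n : ℕ) : X * H (n + 1) = H (n + 2) + (n + 1 : ℝ) • H n := by
  rw [recH, smul_eq_C_mul]; ring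

lemma mom (k : ℕ) : I (C (4 * (k + 2) : ℝ) * (X * H (k + 2) * (X * H (k + 2))) -
    X * (X * H (k + 2)) * (X * (X * H (k + 2)))) =
    (2 * (k + 2) ^ 2 - 2 * (k + 2) - 3) * κ (k + 2) := by
  have o : ∀ {m n : ℕ}, m < n → I (H m * H n) = 0 := fun h => by rw [mul_comm, HO h]
  have e : X * (X * H (k + 2)) =
      H (k + 4) + (2 * k + 5 : ℝ) • H (k + 2) + ((k + 2) * (k + 1) : ℝ) • H k := by
    rw [XH, mul_add, mul_smul_comm, XH, XH]
    push_cast
    module
  rw [e, XH, ← smul_eq_C_mul]
  simp only [mul_add, add_mul, mul_smul_comm, smul_mul_assoc, map_add, map_sub, map_smul, HH,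
    HO (show k + 1 < k + 1 + 2 by omega), o (show k + 1 < k + 1 + 2 by omega),
    HO (show k + 2 < k + 4 by omega), o (show k + 2 < k + 4 by omega),
    HO (show k < k + 4 by omega), o (show k < k + 4 by omega),
    HO (show k < k + 2 by omega), o (show k < k + 2 by omega), smul_eq_mul, κ_succ]
  push_cast
  ring

lemma ptw (N x P U W : ℝ) (hN : 0 < N) (h : x * P = U + N * W) :
    4 * N * (x * P * (x * P)) - x * (x * P) * (x * (x * P)) ≤
      16 * N * (|U * U - (N + 1) * (P * P)| + P * P + N * |P * P - N * (W * W)|) := by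
  have a1 := le_abs_self (U * U - (N + 1) * (P * P))
  have a2 := neg_abs_le (U * U - (N + 1) * (P * P))
  have b1 := mul_le_mul_of_nonneg_left (le_abs_self (P * P - N * (W * W))) hN.le
  have b2 := mul_le_mul_of_nonneg_left (neg_abs_le (P * P - N * (W * W))) hN.le
  have a0 := abs_nonneg (U * U - (N + 1) * (P * P))
  have b0 := mul_nonneg hN.le (abs_nonneg (P * P - N * (W * W)))
  have p0 := mul_self_nonneg P
  generalize |U * U - (N + 1) * (P * P)| = a at *
  generalize |P * P - N * (W * W)| = b at *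
  set E := a + P * P + N * b with hE
  have E0 : 0 ≤ E := by positivity
  have x0 := mul_self_nonneg x
  have y0 := mul_self_nonneg (x * P)
  by_cases hx : 4 * N ≤ x * x
  · have : 0 ≤ 16 * N * E := by positivity
    nlinarith [mul_le_mul_of_nonneg_right hx y0]
  push Not at hx
  by_cases hs : 0 ≤ U * (N * W)
  · have k : 4 * N * (P * P) - x * P * (x * P) ≤ 4 * E := by
      rw [h]
      rcases le_total (U * U) (N * W * (N * W)) with c | c
      · have : U * U ≤ U * (N * W) := by
          refine le_of_sq_le_sq ?_ hs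
          nlinarith [mul_le_mul_of_nonneg_left c (mul_self_nonneg U)]
        nlinarith
      · have : N * W * (N * W) ≤ U * (N * W) := by
          refine le_of_sq_le_sq ?_ hs
          nlinarith [mul_le_mul_of_nonneg_left c (mul_self_nonneg (N * W))]
        nlinarith
    nlinarith [mul_le_mul_of_nonneg_left k x0, mul_le_mul_of_nonneg_right hx.le E0]
  · push Not at hs
    have k : x * P * (x * P) ≤ E := by
      rw [h]
      rcases le_total (U * U) (N * W * (N * W)) with c | c
      · have : U * U ≤ -(U * (N * W)) := by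
          refine le_of_sq_le_sq ?_ (by linarith)
          nlinarith [mul_le_mul_of_nonneg_left c (mul_self_nonneg U)]
        nlinarith
      · have : N * W * (N * W) ≤ -(U * (N * W)) := by
          refine le_of_sq_le_sq ?_ (by linarith)
          nlinarith [mul_le_mul_of_nonneg_left c (mul_self_nonneg (N * W))]
        nlinarith
    nlinarith [mul_le_mul_of_nonneg_left k hN.le, mul_self_nonneg (x * (x * P)), mul_nonneg hN.le E0]

lemma Dbig (k : ℕ) (hk : 50 ≤ k) : ∃ m ≥ k, κ (m + 1) / 20 ≤ D m ∧ m ≤ k + 2 := by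
  by_contra! hc
  have h1 : D (k + 1) < κ (k + 2) / 20 := by
    by_contra! h; have := hc (k + 1) (by omega) h; omega
  have h2 : D (k + 2) < κ (k + 3) / 20 := by
    by_contra! h; have := hc (k + 2) (by omega) h; omega
  have i1 := intS (k + 1)
  have i2 := intS (k + 2)
  have i3 := intg (H (k + 2) * H (k + 2))
  have key : (2 * (k + 2) ^ 2 - 2 * (k + 2) - 3) * κ (k + 2) ≤
      16 * (k + 2) * (D (k + 2) + κ (k + 2) + (k + 2) * D (k + 1)) := by
    rw [← mom, ← HH, I_def, I_def, D, D, ← integral_const_mul, ← integral_add' i2 i3,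
      ← integral_add' (i2.add i3) (i1.const_mul _), ← integral_const_mul]
    refine integral_mono (intg _) (((i2.add i3).add (i1.const_mul _)).const_mul _) fun x => ?_
    have h := congrArg (eval x) (XH (k + 1))
    simp only [eval_mul, eval_add, eval_smul, eval_X, smul_eq_mul] at h
    have := mul_le_mul_of_nonneg_right (ptw (k + 2) x _ _ ((H (k + 1)).eval x) (by positivity)
      (by rw [h]; push_cast; ring)) (g_pos x).le
    simp only [S, eval_mul, eval_sub, eval_X, eval_C, Pi.add_apply]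
    push_cast
    rw [show (k + 1 + 1 : ℝ) = k + 2 by ring]
    linarith
  rw [κ_succ] at h2
  have p := κ_pos (k + 2)
  have : (50 : ℝ) ≤ k := by exact_mod_cast hk
  push_cast at h2
  have h3 := mul_le_mul_of_nonneg_left h1.le (by positivity : (0 : ℝ) ≤ k + 2)
  have h4 := key.trans (mul_le_mul_of_nonneg_left (add_le_add (add_le_add h2.le le_rfl) h3)
    (by positivity))
  have h5 : (2 * (k + 2 : ℝ) ^ 2 - 2 * (k + 2) - 3) ≤
      16 * (k + 2) * ((k + 2 + 1) / 20 + 1 + (k + 2) / 20) :=
    le_of_mul_le_mul_right (by linarith) p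
  nlinarith

noncomputable def ψ (m : ℕ) (x : ℝ) : ℝ := if 0 ≤ (S m).eval x then 40 / 41 else 41 / 40

lemma intb (q : ℝ[X]) {f : ℝ → ℝ} (hf : Measurable f) (hb : ∀ x, 40 / 41 ≤ f x ∧ f x ≤ 41 / 40) :
    Integrable fun x => q.eval x * (f x * g x) := by
  have := (intg q).bdd_mul (c := 41 / 40) hf.aestronglyMeasurable (ae_of_all _ fun x => by
    rw [Real.norm_eq_abs, abs_of_nonneg (by linarith [(hb x).1])]; exact (hb x).2)
  exact this.congr (ae_of_all _ fun x => by ring)

lemma invb {f : ℝ → ℝ} (hb : ∀ x, 40 / 41 ≤ f x ∧ f x ≤ 41 / 40) (x : ℝ) :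
    40 / 41 ≤ (f x)⁻¹ ∧ (f x)⁻¹ ≤ 41 / 40 := by
  have : 0 < f x := by linarith [(hb x).1]
  rw [le_inv_comm₀ (by norm_num) this, inv_le_comm₀ this (by norm_num)]
  constructor <;> norm_num <;> linarith [(hb x).1, (hb x).2]

lemma stage (R : ℝ) (k : ℕ) : ∃ R', R + 1 ≤ R' ∧ ∃ m ≥ k, ∀ f : ℝ → ℝ, Measurable f →
    (∀ x, 40 / 41 ≤ f x ∧ f x ≤ 41 / 40) → (∀ x, R ≤ |x| → |x| < R' → f x = ψ m x) →
    (∫ x, (H (m + 1) * H (m + 1)).eval x * (f x * g x)) +
      (m + 1) * ∫ x, (H m * H m).eval x * ((f x)⁻¹ * g x) ≤ (2 - 1 / 5000) * κ (m + 1) := by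
  obtain ⟨N, hN⟩ := T0 ((exp (R ^ 2))⁻¹ / 10000) (by positivity)
  obtain ⟨m, hm, hD, -⟩ := Dbig (k + N + 50) (by omega)
  have p := κ_pos (m + 1)
  obtain ⟨R', r1, r2, r3⟩ : ∃ R' : ℝ, R + 1 ≤ R' ∧ 1 ≤ R' ∧
      (R' ^ 2)⁻¹ * I (X * X * T m) ≤ κ (m + 1) / 10000 := by
    have z : 0 ≤ 10000 * |I (X * X * T m)| / κ (m + 1) := by positivity
    refine ⟨|R| + 1 + 10000 * |I (X * X * T m)| / κ (m + 1), by linarith [le_abs_self R],
      by linarith [abs_nonneg R], ?_⟩
    have e : 10000 * |I (X * X * T m)| = 10000 * |I (X * X * T m)| / κ (m + 1) * κ (m + 1) := by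
      field_simp
    have := le_abs_self (I (X * X * T m))
    have := abs_nonneg R
    rw [inv_mul_le_iff₀ (by positivity)]
    generalize 10000 * |I (X * X * T m)| / κ (m + 1) = y at *
    have : y ≤ (|R| + 1 + y) ^ 2 := by nlinarith
    nlinarith
  refine ⟨R', r1, m, by omega, fun f hf hb he => ?_⟩
  have i1 := intb (H (m + 1) * H (m + 1)) hf hb
  have i2 := (intb (H m * H m) hf.inv (invb hb)).const_mul (m + 1 : ℝ)
  have j1 := (intg (T m)).const_mul (3281 / 3280)
  have j2 := (intS m).const_mul (81 / 3280)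
  have j3 := (intg 1).const_mul (41 / 40 * ((T m).eval 0 * exp (R ^ 2)))
  have j4 := (intg (X * X * T m)).const_mul (41 / 40 * (R' ^ 2)⁻¹)
  have key := integral_mono (i1.add i2) (((j1.sub j2).add j3).add j4) fun x => by
    have tb := Tb m x
    have t0 : 0 ≤ (T m).eval 0 := by
      simp only [T, eval_add, eval_mul, eval_C]
      exact add_nonneg (mul_self_nonneg _) (mul_nonneg (by positivity) (mul_self_nonneg _))
    have hψ := he x
    have b1 := hb x
    have b2 := invb hb x
    have g0 := g_pos x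
    generalize (T m).eval 0 = t at *
    simp only [Pi.add_apply, Pi.sub_apply, Pi.inv_apply, eval_mul, eval_X, eval_one, T, S, ψ,
      eval_add, eval_sub, eval_C] at tb hψ ⊢
    have u0 := mul_self_nonneg ((H (m + 1)).eval x)
    have v0 : 0 ≤ (m + 1 : ℝ) * ((H m).eval x * (H m).eval x) :=
      mul_nonneg (by positivity) (mul_self_nonneg _)
    rw [← mul_assoc (m + 1 : ℝ)]
    generalize (H (m + 1)).eval x * (H (m + 1)).eval x = u at *
    generalize (m + 1 : ℝ) * ((H m).eval x * (H m).eval x) = v at *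
    have c1 : 0 ≤ t * exp (R ^ 2) := by positivity
    have c2 : 0 ≤ (R' ^ 2)⁻¹ * (x * x * (u + v)) :=
      mul_nonneg (by positivity) (mul_nonneg (mul_self_nonneg x) (by positivity))
    have c3 : |u - v| ≤ u + v := abs_le.2 ⟨by linarith, by linarith⟩
    have c4 : u * f x + v * (f x)⁻¹ ≤ 41 / 40 * (u + v) := by
      nlinarith [mul_le_mul_of_nonneg_left b1.2 u0, mul_le_mul_of_nonneg_left b2.2 v0]
    have : u * f x + v * (f x)⁻¹ ≤ 3281 / 3280 * (u + v) - 81 / 3280 * |u - v| +
        41 / 40 * (t * exp (R ^ 2)) + 41 / 40 * ((R' ^ 2)⁻¹ * (x * x * (u + v))) := by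
      rcases lt_or_ge |x| R with h | h
      · have : t * exp (x ^ 2) ≤ t * exp (R ^ 2) := by
          exact mul_le_mul_of_nonneg_left
            (exp_le_exp.2 (sq_le_sq.2 (h.le.trans (le_abs_self R)))) t0
        linarith
      rcases lt_or_ge |x| R' with h' | h'
      · rw [hψ h h']
        split_ifs with c
        · rw [abs_of_nonneg c]; norm_num; linarith
        · rw [abs_of_neg (not_le.1 c)]; norm_num; linarith
      · have : u + v ≤ (R' ^ 2)⁻¹ * (x * x * (u + v)) := by
          rw [le_inv_mul_iff₀ (by positivity)]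
          have : R' ^ 2 ≤ x * x := by
            rw [← sq]; exact sq_le_sq.2 (by rwa [abs_of_nonneg (by linarith)])
          gcongr
        linarith
    nlinarith [mul_le_mul_of_nonneg_right this g0.le]
  rw [integral_add' i1 i2, integral_add' ((j1.sub j2).add j3) j4, integral_add' (j1.sub j2) j3,
    integral_sub' j1 j2] at key
  simp only [integral_const_mul, ← I_def, Pi.inv_apply] at key
  have hT : I (T m) = 2 * κ (m + 1) := by
    rw [T, map_add, ← smul_eq_C_mul, map_smul, HH, HH, κ_succ, smul_eq_mul]; ring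
  have := mul_le_mul_of_nonneg_left (hN m (by omega)) (exp_pos (R ^ 2)).le
  have e : exp (R ^ 2) * ((exp (R ^ 2))⁻¹ / 10000 * κ (m + 1)) = κ (m + 1) / 10000 := by field_simp
  rw [hT] at key
  unfold D at hD
  linarith

end Pool.Agent.H.MP_e8d659_an
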