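import Pool.Agent.H.MP_e8d659_an.C

namespace Pool.Agent.H.MP_e8d659_an
open Polynomial MeasureTheory Real Filter Topology

lemma exf : ∃ f : ℝ → ℝ, Measurable f ∧ (∀ x, 40 / 41 ≤ f x ∧ f x ≤ 41 / 40) ∧ ∀ k, ∃ m ≥ k,
    (∫ x, (H (m + 1) * H (m + 1)).eval x * (f x * g x)) +
      (m + 1 : ℝ) * ∫ x, (H m * H m).eval x * ((f x)⁻¹ * g x) ≤ (2 - 1 / 5000) * κ (m + 1) := by
  classical
  choose F hF M hM h using stage
  let R : ℕ → ℝ := fun k => Nat.rec 0 (fun k r => F r k) k
  have mono : Monotone R := monotone_nat_of_le_succ fun k => by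
    have := hF (R k) k
    show R k ≤ F (R k) k
    linarith
  let A : Set ℝ := ⋃ k, {x | R k ≤ |x| ∧ |x| < R (k + 1) ∧ 0 ≤ (S (M (R k) k)).eval x}
  have hA : MeasurableSet A := MeasurableSet.iUnion fun k =>
    (measurableSet_le measurable_const measurable_abs).inter
      ((measurableSet_lt measurable_abs measurable_const).inter
        (measurableSet_le measurable_const (Polynomial.continuous _).measurable))
  have m : Measurable fun x => if x ∈ A then (40 / 41 : ℝ) else 41 / 40 :=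
    Measurable.ite hA measurable_const measurable_const
  have b : ∀ x, 40 / 41 ≤ (if x ∈ A then (40 / 41 : ℝ) else 41 / 40) ∧
      (if x ∈ A then (40 / 41 : ℝ) else 41 / 40) ≤ 41 / 40 := fun x => by
    split_ifs <;> norm_num
  refine ⟨_, m, b, fun k => ⟨_, hM (R k) k, h (R k) k _ m b fun x h1 h2 => ?_⟩⟩
  refine if_congr ⟨fun hx => ?_, fun hx => Set.mem_iUnion.2 ⟨k, h1, h2, hx⟩⟩ rfl rfl
  obtain ⟨j, a, b, c⟩ := Set.mem_iUnion.1 hx
  rcases lt_trichotomy j k with e | rfl | e
  · exact absurd ((mono e).trans h1) (not_le.2 b)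
  · exact c
  · exact absurd ((mono e).trans a) (not_le.2 h2)

variable {f : ℝ → ℝ} (hf : Measurable f) (hb : ∀ x, 40 / 41 ≤ f x ∧ f x ≤ 41 / 40)

noncomputable def J : ℝ[X] →ₗ[ℝ] ℝ := Jw (fun x => f x * g x) fun q => intb q hf hb

lemma J_def (q : ℝ[X]) : J hf hb q = ∫ x, q.eval x * (f x * g x) := rfl

lemma J_pos (r : ℝ[X]) (h : r ≠ 0) : 0 < J hf hb (r * r) := by
  refine (mul_pos (by norm_num : (0 : ℝ) < 40 / 41) (I_pos r h)).trans_le ?_
  rw [I_def, ← integral_const_mul]
  refine integral_mono ((intg _).const_mul _) (intb _ hf hb) fun x => ?_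
  have := mul_le_mul_of_nonneg_right (hb x).1 (mul_nonneg (mul_self_nonneg (r.eval x)) (g_pos x).le)
  simp only [eval_mul]
  linarith

variable {hf hb} {p : ℕ → ℝ[X]} {a b : ℕ → ℝ}

lemma up (h : OP (J hf hb) p a b) (n : ℕ) :
    1 ≤ (p n).leadingCoeff ^ 2 * J hf hb (H n * H n) := by
  have e := h.mon n (H_deg n).1 (H_deg n).2
  have e2 := h.2.1 n n
  rw [if_pos rfl] at e2
  generalize (p n).leadingCoeff = c at *
  have : 0 ≤ J hf hb ((p n - c • H n) * (p n - c • H n)) := by
    by_cases z : p n - c • H n = 0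
    · simp [z]
    · exact (J_pos hf hb _ z).le
  simp only [mul_sub, sub_mul, mul_smul_comm, smul_mul_assoc, map_sub, map_smul, smul_eq_mul,
    mul_comm (H n) (p n), e, e2] at this
  nlinarith

lemma dn (h : OP (J hf hb) p a b) (n : ℕ) :
    ((p n).leadingCoeff * κ n) ^ 2 ≤ ∫ x, (H n * H n).eval x * ((f x)⁻¹ * g x) := by
  have nd := natDegree_eq_of_degree_eq_some (h.1 n).1
  have e := hI n (p n) nd.le
  rw [show (p n).coeff n = (p n).leadingCoeff by rw [leadingCoeff, nd], mul_comm (κ n)] at e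
  have e2 := h.2.1 n n
  rw [if_pos rfl, J_def] at e2
  generalize (p n).leadingCoeff * κ n = c at *
  have i1 := (intg (H n * p n)).const_mul (2 * c)
  have i2 := (intb (p n * p n) hf hb).const_mul (c ^ 2)
  have := integral_mono (i1.sub i2) (intb (H n * H n) hf.inv (invb hb)) fun x => by
    have f0 : 0 < f x := by linarith [(hb x).1]
    have := mul_nonneg (mul_nonneg (sq_nonneg ((H n).eval x - c * (p n).eval x * f x))
      (inv_pos.2 f0).le) (g_pos x).le
    simp only [Pi.sub_apply, Pi.inv_apply, eval_mul]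
    rw [← sub_nonneg]
    convert this using 1
    field_simp
    ring
  rw [integral_sub' i1 i2, integral_const_mul, integral_const_mul, e2, ← I_def, e] at this
  simp only [Pi.inv_apply] at this
  linarith

lemma nolim (h : OP (J hf hb) p a b) (hk : ∀ k, ∃ m ≥ k,
    (∫ x, (H (m + 1) * H (m + 1)).eval x * (f x * g x)) +
      (m + 1 : ℝ) * ∫ x, (H m * H m).eval x * ((f x)⁻¹ * g x) ≤ (2 - 1 / 5000) * κ (m + 1)) :
    ¬ ∃ l, Tendsto (fun n : ℕ => a n / √n) atTop (𝓝 l) := by
  rintro ⟨l, hl⟩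
  have h1 : Tendsto (fun n : ℕ => a (n + 1) ^ 2 / (n + 1)) atTop (𝓝 (l ^ 2)) := by
    refine ((tendsto_add_atTop_iff_nat 1).2 (hl.pow 2)).congr fun n => ?_
    rw [div_pow, sq_sqrt (by positivity)]; push_cast; rfl
  have h2 : l ^ 2 ≤ (1 - 1 / 10000) ^ 2 := by
    refine le_of_tendsto_of_frequently h1 (frequently_atTop.2 fun k => ?_)
    obtain ⟨m, hm, e⟩ := hk k
    refine ⟨m, hm, ?_⟩
    have u := up h (m + 1)
    have d := dn h m
    rw [h.lc m] at d
    rw [← J_def hf hb, κ_succ] at e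
    have c0 := (h.1 (m + 1)).2
    have k0 := κ_pos m
    have U0 := (J_pos hf hb _ (H_deg (m + 1)).1.ne_zero).le
    generalize J hf hb _ = U at *
    generalize (∫ x, (H m * H m).eval x * ((f x)⁻¹ * g x)) = V at *
    generalize (p (m + 1)).leadingCoeff = c at *
    have m0 : (0 : ℝ) < m + 1 := by positivity
    have V0 : 0 ≤ V := (sq_nonneg _).trans d
    have s1 : (a (m + 1) * κ m) ^ 2 ≤ U * V := by
      have := mul_le_mul_of_nonneg_left u (sq_nonneg (a (m + 1) * κ m))
      nlinarith [mul_le_mul_of_nonneg_left d U0]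
    have s2 : 4 * (U * ((m + 1) * V)) ≤ ((2 - 1 / 5000) * ((m + 1) * κ m)) ^ 2 := by
      have := pow_le_pow_left₀ (by positivity) e 2
      nlinarith [sq_nonneg (U - (m + 1) * V)]
    rw [div_le_iff₀ m0]
    refine le_of_mul_le_mul_right ?_ (by positivity : 0 < (m + 1 : ℝ) * κ m ^ 2)
    nlinarith [mul_le_mul_of_nonneg_left s1 m0.le]
  let r : ℕ → ℝ := fun n => ((p n).leadingCoeff ^ 2 * κ n)⁻¹
  have r0 : ∀ n, 0 < r n := fun n => inv_pos.2 (mul_pos (pow_pos (h.1 n).2 2) (κ_pos n))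
  have s : Summable r := summable_of_ratio_test_tendsto_lt_one (l := l ^ 2) (by linarith)
    (Eventually.of_forall fun n => (r0 n).ne') (h1.congr fun n => by
      rw [Real.norm_of_nonneg (r0 _).le, Real.norm_of_nonneg (r0 _).le]
      have := (h.1 (n + 1)).2.ne'
      have := (κ_pos n).ne'
      have := (h.2.2.1 n).ne'
      simp only [r, h.lc n, κ_succ]
      field_simp)
  have lb : ∀ n, 40 / 41 ≤ r n := fun n => by
    have d := dn h n
    have k0 := κ_pos n
    have : ∫ x, (H n * H n).eval x * ((f x)⁻¹ * g x) ≤ 41 / 40 * κ n := by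
      rw [← HH, I_def, ← integral_const_mul]
      refine integral_mono (intb _ hf.inv (invb hb)) ((intg _).const_mul _) fun x => ?_
      have := mul_le_mul_of_nonneg_right (invb hb x).2
        (mul_nonneg (mul_self_nonneg ((H n).eval x)) (g_pos x).le)
      simp only [eval_mul, Pi.inv_apply]
      linarith
    rw [le_inv_comm₀ (by norm_num) (mul_pos (pow_pos (h.1 n).2 2) k0)]
    refine le_of_mul_le_mul_right ?_ k0
    norm_num
    nlinarith
  have := ge_of_tendsto' s.tendsto_atTop_zero lb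
  norm_num at this

end Pool.Agent.H.MP_e8d659_an
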